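import Pool.Agent.Y892.DP.Stm3
import Pool.Agent.Y532.DP.Zn
import Pool.Agent.Y188.DP.Mul

/-!
# DP-DZE: the idempotent of an extension of index prime to `p`
-/

set_option autoImplicit false
set_option linter.unusedSectionVars false

open scoped Classical BigOperators
open Pool.Agent.Helper884.IC Pool.Agent.Y63.AWC Pool.Agent.Y63.KR Pool.Agent.Y892.DP
open Pool.Agent.Y532.DP

noncomputable section

namespace Pool.Agent.Y849.DP

theorem dze : S_DZE := by
  intro p hp G _ _ N e m d hN hm hk hpm hd g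
  have hFG : Fintype G := Fintype.ofFinite G
  have hcard := card_ext N e m d hN hm hk hd
  have hmem := mem_ext N e m d hN hm hk hd
  have he : e ∈ Subgroup.normalizer (N : Set G) := conjSub_eq_iff.1 hN
  have hNH : N ≤ N ⊔ Subgroup.zpowers (e ^ d) := le_sup_left
  have heH : e ^ d ∈ N ⊔ Subgroup.zpowers (e ^ d) :=
    le_sup_right (a := N) (Subgroup.mem_zpowers (e ^ d))
  have hHn : N ⊔ Subgroup.zpowers (e ^ d) ≤ Subgroup.normalizer (N : Set G) :=
    sup_le Subgroup.le_normalizer ((Subgroup.zpowers_le).2 (Subgroup.pow_mem _ he d))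
  generalize N ⊔ Subgroup.zpowers (e ^ d) = H at *
  have hFH : Fintype H := Fintype.ofFinite H
  have hFN : Fintype N := Fintype.ofFinite N
  have hnorm : (N.subgroupOf H).Normal := (Subgroup.normal_subgroupOf_iff_le_normalizer hNH).2 hHn
  have hcM : Nat.card (N.subgroupOf H) = Nat.card N :=
    Nat.card_congr (Subgroup.subgroupOfEquivOfLe hNH).toEquiv
  have hpr : ¬ p ∣ m / d := fun h => hpm (h.trans (Nat.div_dvd_of_dvd hd))
  have htop : N.subgroupOf H ⊔ Subgroup.zpowers (⟨e ^ d, heH⟩ : H) = ⊤ := by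
    rw [eq_top_iff]
    rintro x -
    obtain ⟨i, -, hi⟩ := (hmem x).1 x.2
    have h1 : x = (⟨e ^ d, heH⟩ : H) ^ i * ((⟨e ^ d, heH⟩ : H) ^ i)⁻¹ * x := by group
    have h2 : ((⟨e ^ d, heH⟩ : H) ^ i)⁻¹ * x ∈ N.subgroupOf H := by
      rw [Subgroup.mem_subgroupOf]
      have h3 : ((((⟨e ^ d, heH⟩ : H) ^ i)⁻¹ * x : H) : G) = (e ^ (d * i))⁻¹ * x := by
        rw [pow_mul]
        rfl
      rw [h3]
      exact hi
    rw [h1, mul_assoc]
    exact mul_mem (Subgroup.pow_mem _ (le_sup_right (a := N.subgroupOf H)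
      (Subgroup.mem_zpowers _)) i) (le_sup_left (a := N.subgroupOf H) h2)
  have hkey := key (p := p) (N.subgroupOf H) (r := m / d) (by rw [hcM, hcard]) hpr
    (fun chi psi h1 h2 => Pool.Agent.Y188.DP.mul H (N.subgroupOf H) ⟨e ^ d, heH⟩ chi psi htop
      h1 h2)
  have hr0 : ((m / d : ℕ) : ℂ) ≠ 0 := by
    intro h0
    apply hpr
    rw [Nat.cast_eq_zero.1 h0]
    exact dvd_zero p
  by_cases hgH : g ∈ H
  · rw [dz_eq p H g hgH, hkey ⟨g, hgH⟩]
    by_cases hgN : g ∈ N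
    · have h' : (⟨g, hgH⟩ : H) ∈ N.subgroupOf H := Subgroup.mem_subgroupOf.2 hgN
      have hs : ∑ psi ∈ (Irr (N.subgroupOf H)).filter (fun psi => DZ p psi),
          psi 1 * psi ⟨⟨g, hgH⟩, h'⟩ =
          ∑ psi ∈ (Irr N).filter (fun psi => DZ p psi), psi 1 * psi ⟨g, hgN⟩ :=
        dzs_congr (Subgroup.subgroupOfEquivOfLe hNH) ⟨⟨g, hgH⟩, h'⟩
      rw [dif_pos h', dz_eq p N g hgN, hs, hcard]
      rw [Nat.cast_mul, mul_inv, ← mul_assoc]
      congr 1
      field_simp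
    · have h' : (⟨g, hgH⟩ : H) ∉ N.subgroupOf H := fun h => hgN (Subgroup.mem_subgroupOf.1 h)
      rw [dif_neg h', mul_zero]
      unfold dz
      rw [dif_neg hgN]
  · unfold dz
    rw [dif_neg hgH, dif_neg (fun h => hgH (hNH h))]

end Pool.Agent.Y849.DP
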