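import Pool.Agent.Y892.DP.Stm2

/-!
# Invariant characters and commuting pairs (`S_FIX`, `S_PAIR`)
-/

set_option autoImplicit false
set_option linter.unusedSectionVars false

open scoped Classical BigOperators

noncomputable section

namespace Pool.Agent.Y849.DP

open Pool.Agent.Y63.KR Pool.Agent.Y63.AWC Pool.Agent.Y892.DP Pool.Agent.Helper884.IC

/-- characters fixed by an automorphism, counted by pairs -/
theorem fix_count' {H : Type} [Group H] [Fintype H] (α : H ≃* H) :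
    Nat.card H * ((Irr H).filter fun theta => (fun x => theta (α x)) = theta).card =
      Nat.card {q : H × H // q.2 * α q.1 * q.2⁻¹ = q.1} := by
  have hM := cardG_ne (G := H)
  have h1 : (((Irr H).filter fun theta => (fun x => theta (α x)) = theta).card : ℂ)
      = ∑ theta ∈ Irr H, B (fun x => theta (α x)) theta := by
    rw [Finset.card_filter, Nat.cast_sum]
    refine Finset.sum_congr rfl fun theta ht => ?_
    rw [B_irr (irr_comp α (mem_Irr.mp ht)) (mem_Irr.mp ht)]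
    split_ifs <;> simp
  have h2 : ∑ theta ∈ Irr H, B (fun x => theta (α x)) theta =
      (Nat.card H : ℂ)⁻¹ * ∑ m : H, (Nat.card {n : H // n * α m * n⁻¹ = m} : ℂ) := by
    unfold B
    rw [← Finset.mul_sum, Finset.sum_comm]
    congr 1
    refine Finset.sum_congr rfl fun m _ => ?_
    rw [← col_orth]
  have h3 : Nat.card {q : H × H // q.2 * α q.1 * q.2⁻¹ = q.1}
      = ∑ m : H, Nat.card {n : H // n * α m * n⁻¹ = m} := by
    have e : {q : H × H // q.2 * α q.1 * q.2⁻¹ = q.1} ≃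
        (Σ m : H, {n : H // n * α m * n⁻¹ = m}) :=
      { toFun := fun q => ⟨q.1.1, q.1.2, q.2⟩
        invFun := fun s => ⟨(s.1, s.2.1), s.2.2⟩
        left_inv := fun q => rfl
        right_inv := fun s => rfl }
    rw [Nat.card_congr e, Nat.card_sigma]
  have h4 : ((Nat.card H * ((Irr H).filter fun theta => (fun x => theta (α x)) = theta).card : ℕ)
      : ℂ) = ((Nat.card {q : H × H // q.2 * α q.1 * q.2⁻¹ = q.1} : ℕ) : ℂ) := by
    rw [h3, Nat.cast_mul, h1, h2]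
    push_cast
    field_simp
  exact_mod_cast h4

/-- conjugation as an automorphism of a normalised subgroup -/
def cnj {G : Type} [Group G] (M : Subgroup G) (y : G) (h1 : ∀ g ∈ M, y * g * y⁻¹ ∈ M)
    (h2 : ∀ g ∈ M, y⁻¹ * g * y ∈ M) : M ≃* M where
  toFun g := ⟨y * g * y⁻¹, h1 g g.2⟩
  invFun g := ⟨y⁻¹ * g * y, h2 g g.2⟩
  left_inv g := Subtype.ext (by simp only; group)
  right_inv g := Subtype.ext (by simp only; group)
  map_mul' g g' := Subtype.ext (by simp only [Subgroup.coe_mul]; group)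

theorem fix : S_FIX := by
  intro G _ _ N e H he
  have : Fintype G := Fintype.ofFinite G
  set M : Subgroup G := N ⊓ H with hM
  by_cases hex : ∃ y ∈ H, e⁻¹ * y ∈ N
  · obtain ⟨y, hyH, hyN⟩ := hex
    have heN : ∀ g ∈ N, e * g * e⁻¹ ∈ N := by
      intro g hg
      have := conj_mem_conjSub (g := e) hg
      rwa [he] at this
    have heN' : ∀ g ∈ N, e⁻¹ * g * e ∈ N := by
      intro g hg
      rw [← he, mem_conjSub] at hg
      exact hg
    have hy1 : ∀ g ∈ M, y * g * y⁻¹ ∈ M := by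
      intro g hg
      refine ⟨?_, H.mul_mem (H.mul_mem hyH hg.2) (H.inv_mem hyH)⟩
      have h1 := heN _ (N.mul_mem (N.mul_mem hyN hg.1) (N.inv_mem hyN))
      have h2 : e * (e⁻¹ * y * g * (e⁻¹ * y)⁻¹) * e⁻¹ = y * g * y⁻¹ := by group
      rwa [h2] at h1
    have hy2 : ∀ g ∈ M, y⁻¹ * g * y ∈ M := by
      intro g hg
      refine ⟨?_, H.mul_mem (H.mul_mem (H.inv_mem hyH) hg.2) hyH⟩
      have h1 := N.mul_mem (N.mul_mem (N.inv_mem hyN) (heN' _ hg.1)) hyN
      have h2 : (e⁻¹ * y)⁻¹ * (e⁻¹ * g * e) * (e⁻¹ * y) = y⁻¹ * g * y := by group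
      rwa [h2] at h1
    let α : M ≃* M := cnj M y hy1 hy2
    have hα : ∀ g : M, ((α g : M) : G) = y * g * y⁻¹ := fun g => rfl
    have hnum : numFix N e H = ((Irr M).filter fun theta => (fun x => theta (α x)) = theta).card := by
      unfold numFix
      rw [← Nat.card_eq_finsetCard]
      refine Nat.card_congr (Equiv.subtypeEquivRight fun ψ => ?_)
      rw [Finset.mem_filter, mem_Irr]
      refine and_congr_right fun hψ => ?_
      have hψ' : IsIrrChar ψ := hψ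
      have hcl := hψ'.isClass
      constructor
      · rintro ⟨y', hy'H, hy'N, hy'⟩
        funext g
        -- `y' = y m`
        have hm : y⁻¹ * y' ∈ M := by
          refine ⟨?_, H.mul_mem (H.inv_mem hyH) hy'H⟩
          have h1 := N.mul_mem (N.inv_mem hyN) hy'N
          have h2 : (e⁻¹ * y)⁻¹ * (e⁻¹ * y') = y⁻¹ * y' := by group
          rwa [h2] at h1
        set m : M := ⟨y⁻¹ * y', hm⟩ with hmd
        have h1 := hy' (m⁻¹ * g * m⁻¹⁻¹) (α g) (by
          rw [hα]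
          simp only [hmd, Subgroup.coe_mul, InvMemClass.coe_inv, inv_inv]
          group)
        rw [hcl g m⁻¹] at h1
        exact h1
      · intro h1
        refine ⟨y, hyH, hyN, fun g g' hg => ?_⟩
        have h2 : g' = α g := Subtype.ext hg
        rw [h2]
        exact congrFun h1 g
    rw [hnum, fix_count']
    refine Nat.card_congr
      { toFun := fun q => ⟨((q.1.1 : G), (q.1.2 : G) * y), ?_⟩
        invFun := fun q => ⟨(⟨q.1.1, q.2.1⟩, ⟨q.1.2 * y⁻¹, ?_⟩), ?_⟩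
        left_inv := fun q => ?_
        right_inv := fun q => ?_ }
    · refine ⟨q.1.1.2, ⟨H.mul_mem q.1.2.2.2 hyH, ?_⟩, ?_⟩
      · have h1 := N.mul_mem (heN' _ q.1.2.2.1) hyN
        have h2 : e⁻¹ * (q.1.2 : G) * e * (e⁻¹ * y) = e⁻¹ * ((q.1.2 : G) * y) := by group
        rwa [h2] at h1
      · have h1 := congrArg (Subtype.val) q.2
        simp only [Subgroup.coe_mul, InvMemClass.coe_inv, hα] at h1
        show (q.1.1 : G) * ((q.1.2 : G) * y) = (q.1.2 : G) * y * q.1.1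
        conv_lhs => rw [← h1]
        group
    · refine ⟨?_, H.mul_mem q.2.2.1.1 (H.inv_mem hyH)⟩
      have h1 := heN _ (N.mul_mem q.2.2.1.2 (N.inv_mem hyN))
      have h2 : e * (e⁻¹ * q.1.2 * (e⁻¹ * y)⁻¹) * e⁻¹ = q.1.2 * y⁻¹ := by group
      rwa [h2] at h1
    · apply Subtype.ext
      simp only [Subgroup.coe_mul, InvMemClass.coe_inv, hα]
      have h1 := q.2.2.2
      calc q.1.2 * y⁻¹ * (y * q.1.1 * y⁻¹) * (q.1.2 * y⁻¹)⁻¹ = q.1.2 * q.1.1 * q.1.2⁻¹ := by group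
        _ = q.1.1 * q.1.2 * q.1.2⁻¹ := by rw [h1]
        _ = q.1.1 := by group
    · apply Subtype.ext
      apply Prod.ext
      · rfl
      · apply Subtype.ext
        simp
    · apply Subtype.ext
      apply Prod.ext
      · rfl
      · simp
  · have h1 : numFix N e H = 0 := by
      unfold numFix
      have : IsEmpty {ψ : ↥(N ⊓ H) → ℂ // IsIrreducibleCharacter ψ ∧
          ∃ y ∈ H, e⁻¹ * y ∈ N ∧ ∀ g g' : ↥(N ⊓ H), (g' : G) = y * g * y⁻¹ → ψ g' = ψ g} :=
        ⟨fun ψ => hex ⟨ψ.2.2.choose, ψ.2.2.choose_spec.1, ψ.2.2.choose_spec.2.1⟩⟩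
      exact Nat.card_of_isEmpty
    rw [h1, mul_zero]
    have : IsEmpty {q : G × G // (q.1 ∈ N ∧ q.1 ∈ H) ∧ (q.2 ∈ H ∧ e⁻¹ * q.2 ∈ N) ∧
      q.1 * q.2 = q.2 * q.1} := ⟨fun q => hex ⟨q.1.2, q.2.2.1.1, q.2.2.1.2⟩⟩
    exact Nat.card_of_isEmpty.symm

/-- the number of fixed characters is invariant under conjugation by elements of `N` -/
theorem numFix_conj (hF : S_FIX) {G : Type} [Group G] [Finite G] {N : Subgroup G} {e : G}
    (he : conjSub e N = N) (H : Subgroup G) {n : G} (hn : n ∈ N) :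
    numFix N e (conjSub n H) = numFix N e H := by
  have heN' : ∀ g ∈ N, e⁻¹ * g * e ∈ N := by
    intro g hg
    rw [← he, mem_conjSub] at hg
    exact hg
  have h1 := hF G N e H he
  have h2 := hF G N e (conjSub n H) he
  have h3 : Nat.card ↥(N ⊓ conjSub n H) = Nat.card ↥(N ⊓ H) := by
    refine Nat.card_congr
      { toFun := fun g => ⟨n⁻¹ * g * n, N.mul_mem (N.mul_mem (N.inv_mem hn) g.2.1) hn,
          mem_conjSub.1 g.2.2⟩
        invFun := fun g => ⟨n * g * n⁻¹, N.mul_mem (N.mul_mem hn g.2.1) (N.inv_mem hn),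
          conj_mem_conjSub g.2.2⟩
        left_inv := fun g => Subtype.ext (by simp only; group)
        right_inv := fun g => Subtype.ext (by simp only; group) }
  have h4 : Nat.card {q : G × G // (q.1 ∈ N ∧ q.1 ∈ conjSub n H) ∧
      (q.2 ∈ conjSub n H ∧ e⁻¹ * q.2 ∈ N) ∧ q.1 * q.2 = q.2 * q.1} =
      Nat.card {q : G × G // (q.1 ∈ N ∧ q.1 ∈ H) ∧ (q.2 ∈ H ∧ e⁻¹ * q.2 ∈ N) ∧
        q.1 * q.2 = q.2 * q.1} := by
    refine Nat.card_congr
      { toFun := fun q => ⟨(n⁻¹ * q.1.1 * n, n⁻¹ * q.1.2 * n),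
          ⟨N.mul_mem (N.mul_mem (N.inv_mem hn) q.2.1.1) hn, mem_conjSub.1 q.2.1.2⟩,
          ⟨mem_conjSub.1 q.2.2.1.1, ?_⟩, ?_⟩
        invFun := fun q => ⟨(n * q.1.1 * n⁻¹, n * q.1.2 * n⁻¹),
          ⟨N.mul_mem (N.mul_mem hn q.2.1.1) (N.inv_mem hn), conj_mem_conjSub q.2.1.2⟩,
          ⟨conj_mem_conjSub q.2.2.1.1, ?_⟩, ?_⟩
        left_inv := fun q => Subtype.ext (Prod.ext (by simp only; group) (by simp only; group))
        right_inv := fun q => Subtype.ext (Prod.ext (by simp only; group) (by simp only; group)) }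
    · have h5 := N.mul_mem (N.mul_mem (heN' _ (N.inv_mem hn)) q.2.2.1.2) hn
      have h6 : e⁻¹ * n⁻¹ * e * (e⁻¹ * q.1.2) * n = e⁻¹ * (n⁻¹ * q.1.2 * n) := by group
      rwa [h6] at h5
    · have h5 := q.2.2.2
      calc n⁻¹ * q.1.1 * n * (n⁻¹ * q.1.2 * n) = n⁻¹ * (q.1.1 * q.1.2) * n := by group
        _ = n⁻¹ * (q.1.2 * q.1.1) * n := by rw [h5]
        _ = _ := by group
    · have h5 := N.mul_mem (N.mul_mem (heN' _ hn) q.2.2.1.2) (N.inv_mem hn)
      have h6 : e⁻¹ * n * e * (e⁻¹ * q.1.2) * n⁻¹ = e⁻¹ * (n * q.1.2 * n⁻¹) := by group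
      rwa [h6] at h5
    · have h5 := q.2.2.2
      calc n * q.1.1 * n⁻¹ * (n * q.1.2 * n⁻¹) = n * (q.1.1 * q.1.2) * n⁻¹ := by group
        _ = n * (q.1.2 * q.1.1) * n⁻¹ := by rw [h5]
        _ = _ := by group
  rw [h3, h4, ← h1] at h2
  exact Nat.eq_of_mul_eq_mul_left Nat.card_pos h2

theorem pair : S_GEN → S_FIX → S_PAIR := by
  intro hG hF p _ G _ _ N e he
  have : Fintype {q : G × G // q.1 ∈ N ∧ e⁻¹ * q.2 ∈ N ∧ q.1 * q.2 = q.2 * q.1} :=
    Fintype.ofFinite _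
  have key2 := hG G N (inside p N) (fun σ => (numFix N e (chainStabilizer σ) : ℤ))
    {q : G × G // q.1 ∈ N ∧ e⁻¹ * q.2 ∈ N ∧ q.1 * q.2 = q.2 * q.1}
    (fun q => {q.1.1, q.1.2}) (fun _ => 1) 1 ?_ ?_ ?_
  · rw [one_mul] at key2
    have h1 : ((((Nat.card N : ℤ) * invSum p N e : ℤ)) : ℂ) =
        ((pairs2 p N {y | e⁻¹ * y ∈ N} : ℤ) : ℂ) := by
      unfold invSum pairs2
      push_cast
      rw [key2]
      have h2 : (∑ᶠ q : {q : G × G // q.1 ∈ N ∧ q.2 ∈ {y | e⁻¹ * y ∈ N} ∧ q.1 * q.2 = q.2 * q.1},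
          w (fx (inside p N) {q.1.1, q.1.2})) =
          ∑ t : {q : G × G // q.1 ∈ N ∧ e⁻¹ * q.2 ∈ N ∧ q.1 * q.2 = q.2 * q.1},
            w (fx (inside p N) {t.1.1, t.1.2}) := by
        rw [← finsum_eq_sum_of_fintype]
        rfl
      rw [h2]
      push_cast
      refine Finset.sum_congr rfl fun t _ => ?_
      rw [one_mul]
    exact_mod_cast h1
  · rintro n hn P ⟨hP1, hP2, hP3⟩
    refine ⟨hP1.map _, conjSub_ne_bot hP2, ?_⟩
    intro g hg
    rw [mem_conjSub] at hg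
    have h1 := N.mul_mem (N.mul_mem hn (hP3 hg)) (N.inv_mem hn)
    have h2 : n * (n⁻¹ * g * n) * n⁻¹ = g := by group
    rwa [h2] at h1
  · intro n hn σ
    rw [chainStabilizer_conj, numFix_conj hF he _ hn]
  · intro σ
    rw [one_mul]
    have h1 := hF G N e (chainStabilizer σ.1) he
    have h2 : ((Nat.card ↥(N ⊓ chainStabilizer σ.1) : ℂ)) *
        (((numFix N e (chainStabilizer σ.1) : ℕ) : ℤ) : ℂ) =
        ((Nat.card {q : G × G // (q.1 ∈ N ∧ q.1 ∈ chainStabilizer σ.1) ∧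
          (q.2 ∈ chainStabilizer σ.1 ∧ e⁻¹ * q.2 ∈ N) ∧ q.1 * q.2 = q.2 * q.1} : ℕ) : ℂ) := by
      exact_mod_cast h1
    refine h2.trans ?_
    rw [Finset.sum_boole]
    congr 1
    rw [← Fintype.card_subtype, ← Nat.card_eq_fintype_card]
    refine Nat.card_congr
      { toFun := fun q => ⟨⟨q.1, q.2.1.1, q.2.2.1.2, q.2.2.2⟩, ?_⟩
        invFun := fun q => ⟨q.1.1, ⟨q.1.2.1, ?_⟩, ⟨?_, q.1.2.2.1⟩, q.1.2.2.2⟩
        left_inv := fun q => rfl
        right_inv := fun q => rfl }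
    · intro x hx
      rcases hx with rfl | rfl
      · exact q.2.1.2
      · exact q.2.2.1.1
    · exact q.2 (Or.inl rfl)
    · exact q.2 (Or.inr rfl)

end Pool.Agent.Y849.DP
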